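import Pool.Agent.W254.HP.Opt

/-!
# Gel'fond's conjecture for relations which are linear in the logarithms, up to few logarithms

Let `α_1, ..., α_n` be algebraic numbers, linearly independent over `ℚ`, and let `l_i`, `i ∈ ι`, be any
family (finite or infinite, for example the logarithms of all primes) of logarithms of algebraic
numbers, linearly independent over `ℚ`.  For every `D` there is a set `E` of at most
`(4D)^n - 2^n` indices such that the numbers `e^{α_1}, ..., e^{α_n}` and `l_i`, `i ∉ E`, satisfy no
nonzero polynomial relation with algebraic coefficients which has degree at most `D` in each of the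
`e^{α_j}` and total degree at most one in the logarithms.

For polynomials without logarithms this is the Lindemann-Weierstrass theorem, for `n = 0` or `D = 0`
(where `E` is empty) it is Baker's theorem.  For `n = 1` all but at most `4D - 2` logarithms are
allowed.

Proof.  The hyperplane case of the linear subgroup theorem (Waldschmidt, Roy), derived here from
the obstruction theorem `Pool.Agent.H335R2.Obs.obstruction_of`, bounds the dimension of the space of
relations `∑ x_i w_i = 0`, `w_i` linear forms in `1` and logarithms, by `d (d - 1)` for `d` numbers
`x_i` which are linearly independent over the algebraic numbers.  If the relations with coefficients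
of degree at most `D` in each `e^{α_j}` have rank `r`, their products with the monomials of degree
less than `D` give `r D ^ n` independent relations of degree less than `2 D`, hence
`r D ^ n ≤ (2D)^n ((2D)^n - 1)`.
-/

set_option autoImplicit false

namespace Pool.Agent.Results.MP_c82530_nt.LinearInLogs

open Pool.Agent.W254.HP

/-- Every monomial of `P` has degree at most `D` in each of the variables attached to `Fin n`, and
contains either none of the variables attached to `ι`, or exactly one of them, to the first power
and with index outside `E`. -/
def LinearOutside {n : ℕ} {ι : Type} (D : ℕ) (E : Finset ι)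
    (P : MvPolynomial (Fin n ⊕ ι) (algebraicClosure ℚ ℂ)) : Prop :=
  ∀ m ∈ P.support, (∀ i, m (Sum.inl i) ≤ D) ∧
    ((∀ s, m (Sum.inr s) = 0) ∨ ∃ s, s ∉ E ∧ m (Sum.inr s) = 1 ∧ ∀ s', s' ≠ s → m (Sum.inr s') = 0)

/-- **Main result.** -/
theorem result (n D : ℕ) (α : Fin n → ℂ) (hα : ∀ i, IsAlgebraic ℚ (α i))
    (hαli : LinearIndependent ℚ α) (ι : Type) (l : ι → ℂ)
    (hl : ∀ i, IsAlgebraic ℚ (Complex.exp (l i))) (hlli : LinearIndependent ℚ l) :
    ∃ E : Finset ι, E.card ≤ (4 * D) ^ n - 2 ^ n ∧
      ∀ P : MvPolynomial (Fin n ⊕ ι) (algebraicClosure ℚ ℂ), LinearOutside D E P →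
        MvPolynomial.aeval (Sum.elim (fun i => Complex.exp (α i)) l) P = 0 → P = 0 :=
  linear_in_logs (Pool.Agent.H297R2.exp_algebraicIndependent α hα hαli) D l hl hlli

end Pool.Agent.Results.MP_c82530_nt.LinearInLogs
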