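import Mathlib
import Pool.Agent.W245.EB.GChain
import Pool.Agent.H297R2.ThmJs

/-!
# Gel'fond's conjecture in bounded degree on groups of logarithms of infinite rank

Let `α_0, α_1, …` be algebraic numbers, linearly independent over `ℚ` (for instance a basis of the
field of algebraic numbers over `ℚ`), and let `Λ_0, Λ_1, …` be groups of infinite rank of logarithms
of algebraic numbers. Then there are `t_i ∈ Λ_i` such that for every `D` the numbers
`e^{α_0}, …, e^{α_D}` and arbitrary numbers `x_1, …, x_s` of the `ℚbar`-space spanned by `t_D, t_{D+1}, …`,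
linearly independent over `ℚbar`, satisfy no nontrivial polynomial relation of total degree at most
`D` with algebraic coefficients. By Baker's theorem this applies to `ℚ`-linearly independent
elements of the group generated by `t_D, t_{D+1}, …`, that is to logarithms of multiplicatively
independent algebraic numbers of a group of infinite rank.

The proof uses Baker's theorem (`Pool.Agent.H297R2.BakerThm`), the Lindemann-Weierstrass theorem
(`Pool.Agent.H297R2`), evaluation determinants and a general construction of sequences without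
relations of bounded degree (`Pool.Agent.W245.EB.GChain`).
-/

noncomputable section

namespace Pool.Agent.Results.MP_c82530_nt.UniversalLogSubgroups

open Pool.Agent.W245.EB

/-- The field of algebraic numbers. -/
abbrev Qbar : IntermediateField ℚ ℂ := algebraicClosure ℚ ℂ

/-- **Main result.** -/
theorem result (α : ℕ → ℂ) (hα : ∀ i, IsAlgebraic ℚ (α i)) (hαli : LinearIndependent ℚ α)
    (Λ : ℕ → AddSubgroup ℂ) (hΛ : ∀ i, ∀ x ∈ Λ i, IsAlgebraic ℚ (Complex.exp x))
    (rΛ : ∀ i R : ℕ, ∃ w : Fin R → ℂ, (∀ j, w j ∈ Λ i) ∧ LinearIndependent ℚ w) :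
    ∃ t : ℕ → ℂ, (∀ i, t i ∈ Λ i) ∧ LinearIndependent Qbar t ∧
      ∀ (D s : ℕ) (x : Fin s → ℂ),
        (∀ l, x l ∈ Submodule.span Qbar (t '' Set.Ici D)) → LinearIndependent Qbar x →
        ∀ P : MvPolynomial (Fin (D + 1) ⊕ Fin s) Qbar, P.totalDegree ≤ D →
          MvPolynomial.aeval (Sum.elim (fun i : Fin (D + 1) => Complex.exp (α i)) x) P = 0 →
          P = 0 := by
  classical
  -- the spaces spanned by `1` and the exponentials
  let E : ℕ → Submodule Qb ℂ := fun D =>
    Submodule.span Qb (insert 1 (Set.range fun i : Fin (D + 1) => Complex.exp (α i)))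
  have hEfin : ∀ D, Module.Finite Qb (E D) := fun D =>
    FiniteDimensional.span_of_finite Qb ((Set.finite_range _).insert _)
  have hE1 : ∀ D, (1 : ℂ) ∈ E D := fun D => Submodule.subset_span (Set.mem_insert _ _)
  have hV : ∀ D, Module.Finite Qb (E D ^ (0 + D) : Submodule Qb ℂ) := fun D =>
    Module.Finite.iff_fg.2 ((Module.Finite.iff_fg.1 (hEfin D)).pow _)
  have hS : ∀ (i D : ℕ) (U : Submodule Qb ℂ), Module.Finite Qb U →
      ∃ t ∈ (Λ i : Set ℂ), NoRelTot U D (fun _ : Fin 1 => t) := by
    intro i D U hU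
    apply exists_of_rank (Λ i) _ D U hU
    intro R
    obtain ⟨w, h1, h2⟩ := rΛ i R
    exact ⟨w, h1, LogFam.indep ⟨fun j => hΛ i _ (h1 j), h2⟩⟩
  obtain ⟨c⟩ := exists_gchain (fun i => (Λ i : Set ℂ)) (fun D => E D ^ (0 + D)) hV hS
  refine ⟨c.t, c.ht, c.indep, ?_⟩
  intro D s x hx hxi P hP h0
  have h1 : NoRelTot (E D ^ (0 + D)) D x :=
    (c.nr_top D s x hx hxi).mono ((c.hV D).trans (c.le_pow D _ (by omega))) le_rfl
  have hLW : AlgebraicIndependent Qb (fun i : Fin (D + 1) => Complex.exp (α i)) :=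
    Pool.Agent.H297R2.exp_algebraicIndependent (fun i : Fin (D + 1) => α i) (fun i => hα i)
      (hαli.comp _ Fin.val_injective)
  have h2 : NoRelTot (1 : Submodule Qb ℂ) D (fun i : Fin (D + 1) => Complex.exp (α i)) := by
    intro Q hQ1 hQ2 hQ3
    have h3 : ∀ e, ∃ a : Qb, algebraMap Qb ℂ a = Q.coeff e := fun e => Submodule.mem_one.1 (hQ2 e)
    have h4 : Q ∈ Set.range (MvPolynomial.map (σ := Fin (D + 1)) (algebraMap Qb ℂ)) := by
      rw [MvPolynomial.mem_range_map_iff_coeffs_subset]
      intro a ha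
      obtain ⟨e, _, rfl⟩ := MvPolynomial.mem_coeffs_iff.1 ha
      obtain ⟨b, hb⟩ := h3 e
      exact ⟨b, hb⟩
    obtain ⟨Q', rfl⟩ := h4
    rw [MvPolynomial.eval_map] at hQ3
    have h5 : Q' = 0 := hLW.eq_zero_of_aeval_eq_zero Q' hQ3
    rw [h5, map_zero]
  have h3 := NoRelTot.append (W := (1 : Submodule Qb ℂ)) (A := E D) (a := 0) (hE1 D)
    (le_of_eq (pow_zero _).symm)
    (fun i => Submodule.subset_span (Set.mem_insert_of_mem _ ⟨i, rfl⟩)) h2 h1
  have h4 := h3 (MvPolynomial.map (algebraMap Qb ℂ) P)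
    ((tdmap P).trans hP) (fun e => by
      rw [MvPolynomial.coeff_map]
      exact Submodule.mem_one.2 ⟨_, rfl⟩) (by
      rw [MvPolynomial.eval_map]
      exact h0)
  apply MvPolynomial.map_injective _ (algebraMap Qb ℂ).injective
  rw [h4, map_zero]

end Pool.Agent.Results.MP_c82530_nt.UniversalLogSubgroups
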